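import Mathlib
import Pool.Agent.Y858.RV.Main

set_option autoImplicit false

/-!
# Translation invariant operators from `L^p` to `L^{p,q}`: all second indices are different
-/

open MeasureTheory
open scoped ENNReal NNReal

namespace Pool.Agent.Results.MP_f2c8fe_an.SecondIndexClassification

/-! ### Definitions used in the statement -/

/-- The decreasing rearrangement `g^*(t)` of a function `g` on `R^n`: the smallest height `s` whose
strict superlevel set `{s < |g|}` has Lebesgue measure at most `t`. -/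
noncomputable def rearr {n : ℕ} (g : (Fin n → ℝ) → ℂ) (t : ℝ) : ℝ≥0∞ :=
  sInf {s : ℝ≥0∞ | volume {x | s < ‖g x‖ₑ} ≤ ENNReal.ofReal t}

/-- The weak norm `sup_{t > 0} t^(1/p) g^*(t)` of `L^{p,∞}`. -/
noncomputable def weakNorm {n : ℕ} (p : ℝ) (g : (Fin n → ℝ) → ℂ) : ℝ≥0∞ :=
  ⨆ (t : ℝ) (_ : 0 < t), ENNReal.ofReal (t ^ (1 / p)) * rearr g t

/-- The Lorentz quasi-norm `(∫_0^∞ (t^(1/p) g^*(t))^q dt/t)^(1/q)` of `L^{p,q}`, `q` finite. -/
noncomputable def lorentzNorm {n : ℕ} (p q : ℝ) (g : (Fin n → ℝ) → ℂ) : ℝ≥0∞ :=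
  (∫⁻ t in Set.Ioi (0 : ℝ),
    (ENNReal.ofReal (t ^ (1 / p)) * rearr g t) ^ q * ENNReal.ofReal (1 / t)) ^ (1 / q)

/-- The Lorentz quasi-norm of `L^{p,q}` for a second index `q` in `(0,∞]`. -/
noncomputable def lor {n : ℕ} (p : ℝ) (q : ℝ≥0∞) (g : (Fin n → ℝ) → ℂ) : ℝ≥0∞ :=
  if q = ∞ then weakNorm p g else lorentzNorm p q.toReal g

/-- The space `L^p(R^n)` of complex functions, for a real exponent `p`. -/
abbrev LpR (n : ℕ) (p : ℝ) : Type :=
  Lp ℂ (ENNReal.ofReal p) (volume : Measure ((Fin n → ℝ)))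

/-- Complex measurable functions on `R^n` modulo null sets. -/
abbrev MeasR (n : ℕ) : Type :=
  (Fin n → ℝ) →ₘ[(volume : Measure ((Fin n → ℝ)))] ℂ

/-- Translation `(τ_h g)(x) = g (x - h)` on classes of measurable functions modulo null sets. -/
noncomputable def transM {n : ℕ} (h : (Fin n → ℝ)) (g : MeasR n) : MeasR n :=
  g.compMeasurePreserving (fun x => x - h) (measurePreserving_sub_right volume h)

/-- Translation `(τ_h f)(x) = f (x - h)` on `L^p(R^n)`: the previous translation restricted to the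
subspace `L^p(R^n)`. -/
noncomputable def transLp {n : ℕ} {p : ℝ} (h : Fin n → ℝ) (f : LpR n p) : LpR n p :=
  ⟨transM h f, (f : MeasR n).compMeasurePreserving_mem_Lp f.2 (measurePreserving_sub_right volume h)⟩

/-- Linear operators from `L^p(R^n)` to measurable functions modulo null sets. -/
abbrev Op (n : ℕ) (p : ℝ) : Type := LpR n p →ₗ[ℂ] MeasR n

/-- The operator `T` commutes with all translations of `R^n`. -/
def TranslationInvariant {n : ℕ} {p : ℝ} (T : Op n p) : Prop :=
  ∀ (h : (Fin n → ℝ)) (f : LpR n p), T (transLp h f) = transM h (T f)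

/-- The operator `T` is bounded from `L^p` into the space with quasi-norm `N`. -/
def BoundedInto {n : ℕ} {p : ℝ} (T : Op n p)
    (N : ((Fin n → ℝ) → ℂ) → ℝ≥0∞) : Prop :=
  ∃ C : ℝ≥0, ∀ f : LpR n p, N (T f) ≤ C * eLpNorm f (ENNReal.ofReal p) volume

/-- The half-open unit cube of `R^n`. -/
def cube (n : ℕ) : Set (Fin n → ℝ) := {x | ∀ i, x i ∈ Set.Ico (0 : ℝ) 1}

lemma cube_meas (n : ℕ) : MeasurableSet (cube n) :=
  Pool.Agent.Results.MP_f2c8fe_an.RiviereFalse.cube_meas

lemma cube_vol_ne (n : ℕ) : volume (cube n) ≠ ∞ := by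
  have h : volume (cube n) = 1 := Pool.Agent.Results.MP_f2c8fe_an.RiviereFalse.cube_vol
  rw [h]
  exact ENNReal.one_ne_top

/-- The indicator function of the unit cube, as an element of `L^p(R^n)`. -/
noncomputable def cubeLp (n : ℕ) (p : ℝ) : LpR n p :=
  indicatorConstLp (ENNReal.ofReal p) (cube_meas n) (cube_vol_ne n) 1

/-- **The second index of the target is sharp, in every dimension and for every `1 < p < 2`.**
(1) for every `q ∈ [p,∞]` a translation invariant operator is bounded from `L^p` to `L^{p,q}` but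
maps the indicator function of the unit cube outside of every `L^{p,s}` with `s < q`;
(2) for every `q ∈ [p,∞)` one is bounded from `L^p` to `L^{p,s}` for every `s > q` but maps the
indicator function of the unit cube outside of `L^{p,s}` for every `s ≤ q`;
(3) hence for `q₁ < q₂`, `p ≤ q₂ ≤ ∞`, some translation invariant operator is bounded from `L^p`
to `L^{p,q₂}` and not from `L^p` to `L^{p,q₁}`;
(4) in particular (`q₂ = ∞`, `q₁ = p'`) Rivière's question has a negative answer. -/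
theorem result : ∀ n : ℕ, 1 ≤ n → ∀ p : ℝ, 1 < p → p < 2 →
    (∀ q : ℝ≥0∞, ENNReal.ofReal p ≤ q → ∃ T : Op n p, TranslationInvariant T ∧
      BoundedInto T (lor p q) ∧
      ∀ s : ℝ≥0∞, 0 < s → s < q → lor p s (T (cubeLp n p)) = ∞) ∧
    (∀ q : ℝ≥0∞, ENNReal.ofReal p ≤ q → q < ∞ → ∃ T : Op n p, TranslationInvariant T ∧
      (∀ s : ℝ≥0∞, q < s → BoundedInto T (lor p s)) ∧
      ∀ s : ℝ≥0∞, 0 < s → s ≤ q → lor p s (T (cubeLp n p)) = ∞) ∧
    (∀ q₁ q₂ : ℝ≥0∞, 0 < q₁ → q₁ < q₂ → ENNReal.ofReal p ≤ q₂ → ∃ T : Op n p,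
      TranslationInvariant T ∧ BoundedInto T (lor p q₂) ∧ ¬ BoundedInto T (lor p q₁)) ∧
    ∃ T : Op n p, TranslationInvariant T ∧ BoundedInto T (weakNorm p) ∧
      ¬ BoundedInto T (lorentzNorm p (p / (p - 1))) := by
  intro n hn p hp hp2
  exact Pool.Agent.Y858.RV.Main.main n hn p hp hp2

end Pool.Agent.Results.MP_f2c8fe_an.SecondIndexClassification
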